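import Pool.Agent.Helper58.TB.Count
import Pool.Agent.Helper67.TY.RunsData

/-!
MP_8ee768_co, project TH-Y': the fourteen runs of stage 0 as unions of sub-runs (zero points, flagged
points), and the start states of the search.
-/

set_option autoImplicit false
set_option maxRecDepth 100000

namespace Pool.Agent.Helper39.TY

open Pool.Agent.Helper67.TY (repA repB CountRun prevs runsA6 runsB6)
open Pool.Agent.Helper58.TB (CountSub countRun_of_subs subsOK)
open Pool.Agent.Helper69.TY (pcb)

theorem repA_lt : repA < 2 ^ 165 := by decide +kernel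

theorem repB_lt : repB < 2 ^ 165 := by decide +kernel

theorem repA_card : pcb repA 165 = 19 := by decide +kernel

theorem repB_card : pcb repB 165 = 19 := by decide +kernel

/-- run 0 over REP(A), `MM ≤ 6` -/
theorem cA6_0 (h0 : CountSub repA 513 0 6 53213) :
    CountRun repA 513 (prevs runsA6 0) 6 53213 := by
  refine countRun_of_subs repA_lt repA_card (by norm_num) (by decide +kernel)
    [(513, 0, 53213)] (by decide +kernel) (by decide +kernel) ?_ (by decide)
  intro s hs
  simp only [List.mem_cons, List.not_mem_nil, or_false] at hs
  subst hs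
  exact h0

/-- run 1 over REP(A), `MM ≤ 6` -/
theorem cA6_1 (h0 : CountSub repA 65 1536 6 120817) :
    CountRun repA 65 (prevs runsA6 1) 6 120817 := by
  refine countRun_of_subs repA_lt repA_card (by norm_num) (by decide +kernel)
    [(65, 1536, 120817)] (by decide +kernel) (by decide +kernel) ?_ (by decide)
  intro s hs
  simp only [List.mem_cons, List.not_mem_nil, or_false] at hs
  subst hs
  exact h0

/-- run 2 over REP(A), `MM ≤ 6` -/
theorem cA6_2 (h0 : CountSub repA 257 1734 6 1845) :
    CountRun repA 257 (prevs runsA6 2) 6 1845 := by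
  refine countRun_of_subs repA_lt repA_card (by norm_num) (by decide +kernel)
    [(257, 1734, 1845)] (by decide +kernel) (by decide +kernel) ?_ (by decide)
  intro s hs
  simp only [List.mem_cons, List.not_mem_nil, or_false] at hs
  subst hs
  exact h0

/-- run 3 over REP(A), `MM ≤ 6` -/
theorem cA6_3 (h0 : CountSub repA 520 7 6 9812) :
    CountRun repA 520 (prevs runsA6 3) 6 9812 := by
  refine countRun_of_subs repA_lt repA_card (by norm_num) (by decide +kernel)
    [(520, 7, 9812)] (by decide +kernel) (by decide +kernel) ?_ (by decide)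
  intro s hs
  simp only [List.mem_cons, List.not_mem_nil, or_false] at hs
  subst hs
  exact h0

/-- run 4 over REP(A), `MM ≤ 6` -/
theorem cA6_4 (h0 : CountSub repA 24 1543 6 9928) (h1 : CountSub repA 26 1985 6 1961) (h2 : CountSub repA 25 1984 6 7630) :
    CountRun repA 24 (prevs runsA6 4) 6 19519 := by
  refine countRun_of_subs repA_lt repA_card (by norm_num) (by decide +kernel)
    [(24, 1543, 9928), (26, 1985, 1961), (25, 1984, 7630)] (by decide +kernel) (by decide +kernel) ?_ (by decide)
  intro s hs
  simp only [List.mem_cons, List.not_mem_nil, or_false] at hs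
  rcases hs with rfl | rfl | rfl
  · exact h0
  · exact h1
  · exact h2

/-- run 5 over REP(A), `MM ≤ 6` -/
theorem cA6_5 (h0 : CountSub repA 192 63 6 870) :
    CountRun repA 192 (prevs runsA6 5) 6 870 := by
  refine countRun_of_subs repA_lt repA_card (by norm_num) (by decide +kernel)
    [(192, 63, 870)] (by decide +kernel) (by decide +kernel) ?_ (by decide)
  intro s hs
  simp only [List.mem_cons, List.not_mem_nil, or_false] at hs
  subst hs
  exact h0

/-- run 0 over REP(B), `MM ≤ 6` -/
theorem cB6_0 (h0 : CountSub repB 520 0 6 57521) :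
    CountRun repB 520 (prevs runsB6 0) 6 57521 := by
  refine countRun_of_subs repB_lt repB_card (by norm_num) (by decide +kernel)
    [(520, 0, 57521)] (by decide +kernel) (by decide +kernel) ?_ (by decide)
  intro s hs
  simp only [List.mem_cons, List.not_mem_nil, or_false] at hs
  subst hs
  exact h0

/-- run 1 over REP(B), `MM ≤ 6` -/
theorem cB6_1 (h0 : CountSub repB 9 1536 6 118102) :
    CountRun repB 9 (prevs runsB6 1) 6 118102 := by
  refine countRun_of_subs repB_lt repB_card (by norm_num) (by decide +kernel)
    [(9, 1536, 118102)] (by decide +kernel) (by decide +kernel) ?_ (by decide)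
  intro s hs
  simp only [List.mem_cons, List.not_mem_nil, or_false] at hs
  subst hs
  exact h0

/-- run 2 over REP(B), `MM ≤ 6` -/
theorem cB6_2 (h0 : CountSub repB 24 1543 6 20436) :
    CountRun repB 24 (prevs runsB6 2) 6 20436 := by
  refine countRun_of_subs repB_lt repB_card (by norm_num) (by decide +kernel)
    [(24, 1543, 20436)] (by decide +kernel) (by decide +kernel) ?_ (by decide)
  intro s hs
  simp only [List.mem_cons, List.not_mem_nil, or_false] at hs
  subst hs
  exact h0

/-- run 3 over REP(B), `MM ≤ 6` -/
theorem cB6_3 (h0 : CountSub repB 3 504 6 44) :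
    CountRun repB 3 (prevs runsB6 3) 6 44 := by
  refine countRun_of_subs repB_lt repB_card (by norm_num) (by decide +kernel)
    [(3, 504, 44)] (by decide +kernel) (by decide +kernel) ?_ (by decide)
  intro s hs
  simp only [List.mem_cons, List.not_mem_nil, or_false] at hs
  subst hs
  exact h0

/-- run 0 over REP(A), `MM ≤ 4` -/
theorem cA4_0 (h0 : CountSub repA 576 0 4 2299) :
    CountRun repA 576 [] 4 2299 := by
  refine countRun_of_subs repA_lt repA_card (by norm_num) (by decide +kernel)
    [(576, 0, 2299)] (by decide +kernel) (by decide +kernel) ?_ (by decide)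
  intro s hs
  simp only [List.mem_cons, List.not_mem_nil, or_false] at hs
  subst hs
  exact h0

/-- run 1 over REP(A), `MM ≤ 4` -/
theorem cA4_1 (h0 : CountSub repA 33 1536 4 3286) (h1 : CountSub repA 1057 960 4 17) (h2 : CountSub repA 545 448 4 45) :
    CountRun repA 33 [576, 640, 768, 1088, 1152, 1280] 4 3348 := by
  refine countRun_of_subs repA_lt repA_card (by norm_num) (by decide +kernel)
    [(33, 1536, 3286), (1057, 960, 17), (545, 448, 45)] (by decide +kernel) (by decide +kernel) ?_ (by decide)
  intro s hs
  simp only [List.mem_cons, List.not_mem_nil, or_false] at hs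
  rcases hs with rfl | rfl | rfl
  · exact h0
  · exact h1
  · exact h2

/-- run 0 over REP(B), `MM ≤ 4` -/
theorem cB4_0 (h0 : CountSub repB 520 0 4 2501) :
    CountRun repB 520 [] 4 2501 := by
  refine countRun_of_subs repB_lt repB_card (by norm_num) (by decide +kernel)
    [(520, 0, 2501)] (by decide +kernel) (by decide +kernel) ?_ (by decide)
  intro s hs
  simp only [List.mem_cons, List.not_mem_nil, or_false] at hs
  subst hs
  exact h0

/-- run 1 over REP(B), `MM ≤ 4` -/
theorem cB4_1 (h0 : CountSub repB 17 1536 4 3050) :
    CountRun repB 17 [520, 528, 544, 576, 640, 768, 1032, 1040, 1056, 1088, 1152, 1280] 4 3050 := by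
  refine countRun_of_subs repB_lt repB_card (by norm_num) (by decide +kernel)
    [(17, 1536, 3050)] (by decide +kernel) (by decide +kernel) ?_ (by decide)
  intro s hs
  simp only [List.mem_cons, List.not_mem_nil, or_false] at hs
  subst hs
  exact h0

end Pool.Agent.Helper39.TY
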