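import Pool.Agent.Helper79.CV.Lane3
import Pool.Agent.Helper91.TY.CRun

/-!
MP_8ee768_co, project TH-Y': the layers of full lanes, on all lanes of a chunk at once.

A chunk has `N` lanes of 2048 bits; lane `i` is the cube code of `fam 11 4 e_i` (the members avoiding the
apex `11`). `layers N R X` (`R` = the cube code of the triples `fam 11 3 T` in every lane) is the chunk
whose lanes are the cube codes of `laneF (ent T e_i)`: the bad triples are found by the planes `seen
once`, `seen twice`, the bits of the points by population counts.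
-/

set_option autoImplicit false

namespace Pool.Agent.Helper39.TY

open Finset
open Pool.Agent.Helper89.CV (OddCover ofMask)
open Pool.Agent.Helper97.CV
open Pool.Agent.Helper79.CV
open Pool.Agent.Helper33.CV
open Pool.Agent.Helper63.SIMD
open Pool.Agent.Helper91.TY
open Pool.Agent.Helper82.TY (below)

/-- the members through `p`, without `p` -/
def yp (K p X : ℕ) : ℕ := Nat.shiftRight (Nat.land X (ib K p)) (Nat.pow 2 p)

theorem testBit_yp {K p : ℕ} (h : 2 ^ (p + 1) ∣ K) (X g : ℕ) :
    (yp K p X).testBit g = (X.testBit (g + 2 ^ p) && (decide (g + 2 ^ p < K) && !g.testBit p)) := by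
  have e : yp K p X = (X &&& ib K p) >>> (2 ^ p) := rfl
  rw [e, Nat.testBit_shiftRight, Nat.testBit_and, testBit_ib h, Nat.add_comm (2 ^ p) g]
  congr 2
  rw [Nat.add_comm, Nat.testBit_two_pow_add_eq]

/-- seen once after `k` points -/
def sA (K R X : ℕ) : ℕ → ℕ
  | 0 => R
  | k + 1 => Nat.lor (sA K R X k) (yp K k X)

/-- seen twice after `k` points -/
def sB (K R X : ℕ) : ℕ → ℕ
  | 0 => 0
  | k + 1 => Nat.lor (sB K R X k) (Nat.land (sA K R X k) (yp K k X))

/-- number of times seen -/
def cA (K R X k g : ℕ) : ℕ :=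
  (R.testBit g).toNat + ∑ p ∈ range k, ((yp K p X).testBit g).toNat

theorem seen_spec (K R X g : ℕ) : ∀ k, (sA K R X k).testBit g = decide (1 ≤ cA K R X k g) ∧
    (sB K R X k).testBit g = decide (2 ≤ cA K R X k g)
  | 0 => by
    have e : cA K R X 0 g = (R.testBit g).toNat := by
      unfold cA
      rw [range_zero, sum_empty, add_zero]
    rw [e]
    show R.testBit g = _ ∧ (0 : ℕ).testBit g = _
    rw [Nat.zero_testBit]
    cases R.testBit g <;> decide
  | k + 1 => by
    obtain ⟨h1, h2⟩ := seen_spec K R X g k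
    have e : cA K R X (k + 1) g = cA K R X k g + ((yp K k X).testBit g).toNat := by
      unfold cA
      rw [sum_range_succ, add_assoc]
    have e1 : sA K R X (k + 1) = sA K R X k ||| yp K k X := rfl
    have e2 : sB K R X (k + 1) = sB K R X k ||| (sA K R X k &&& yp K k X) := rfl
    rw [e1, e2, Nat.testBit_or, Nat.testBit_or, Nat.testBit_and, h1, h2, e]
    generalize cA K R X k g = c
    cases (yp K k X).testBit g
    · simp
    · constructor
      · simp
      · rcases c with _ | _ | c <;> simp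

/-! ### counts in a family given by its two layers -/

theorem cnt_union {D E : Fam} (h : Disjoint D E) (s : Finset (Fin 13)) :
    cnt (D ∪ E) s = cnt D s + cnt E s := by
  unfold cnt
  rw [filter_union, card_union_of_disjoint (disjoint_filter_filter h)]

theorem cnt_cone {a : Fin 13} {E : Fam} (hE : ∀ s ∈ E, a ∉ s) {t : Finset (Fin 13)}
    (ht : a ∉ t) : cnt (cone a E) t = cnt E t := by
  unfold cnt
  refine card_bij' (fun b _ => b.erase a) (fun s _ => insert a s) ?_ ?_ ?_ ?_
  · intro b hb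
    rw [mem_filter, mem_cone hE] at hb
    rw [mem_filter]
    refine ⟨hb.1.2, fun x hx => mem_erase.2 ⟨fun h => ht (h ▸ hx), hb.2 hx⟩⟩
  · intro s hs
    rw [mem_filter] at hs
    rw [mem_filter, mem_cone hE]
    exact ⟨⟨mem_insert_self a s, by rw [erase_insert (hE s hs.1)]; exact hs.1⟩,
      fun x hx => mem_insert_of_mem (hs.2 hx)⟩
  · intro b hb
    rw [mem_filter, mem_cone hE] at hb
    exact insert_erase hb.1.1
  · intro s hs
    rw [mem_filter] at hs
    exact erase_insert (hE s hs.1)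

theorem notMem_T (T : ℕ) : ∀ s ∈ fam 11 3 T, (11 : Fin 13) ∉ s :=
  fun _ hs => notMem_fam (k := 3) 11 hs

theorem disj_ent (T e : ℕ) : Disjoint (cone 11 (fam 11 3 T)) (fam 11 4 e) := by
  rw [disjoint_left]
  intro s hs h2
  rw [mem_cone (notMem_T T)] at hs
  exact notMem_fam (k := 4) 11 h2 hs.1

theorem cnt_ent {T e : ℕ} {t : Finset (Fin 13)} (ht : (11 : Fin 13) ∉ t) :
    cnt (ent T e) t = cnt (fam 11 3 T) t + cnt (fam 11 4 e) t := by
  unfold ent
  rw [cnt_union (disj_ent T e), cnt_cone (notMem_T T) ht]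

theorem notMem_of_card {n k N : ℕ} (hn : n ≤ 13) {s : Finset (Fin 13)} (h : s.card ≠ k) :
    s ∉ fam n k N := fun hs => h (sub_of_mem_fam hn hs).2

/-- a set of the size of the members -/
theorem cnt_same {k N : ℕ} {t : Finset (Fin 13)} (ht : t.card = k) :
    cnt (fam 11 k N) t = (decide (t ∈ fam 11 k N)).toNat := by
  unfold cnt
  by_cases h : t ∈ fam 11 k N
  · rw [decide_eq_true h, Bool.toNat_true, card_eq_one]
    refine ⟨t, ?_⟩
    ext s
    rw [mem_filter, mem_singleton]
    constructor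
    · rintro ⟨h1, h2⟩
      have h3 := (sub_of_mem_fam (by norm_num) h1).2
      exact (eq_of_subset_of_card_le h2 (by omega)).symm
    · rintro rfl
      exact ⟨h, subset_rfl⟩
  · rw [decide_eq_false h, Bool.toNat_false, card_eq_zero, filter_eq_empty_iff]
    intro s hs h2
    have h3 := (sub_of_mem_fam (by norm_num) hs).2
    have h4 := eq_of_subset_of_card_le h2 (by omega)
    exact h (h4 ▸ hs)

/-- a set one smaller than the members -/
theorem cnt_above {k N : ℕ} {t : Finset (Fin 13)} (ht : t.card = k) :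
    cnt (fam 11 (k + 1) N) t = ∑ p ∈ range 11,
      (if h : p < 13 then decide ((⟨p, h⟩ : Fin 13) ∉ t ∧ insert (⟨p, h⟩ : Fin 13) t ∈
        fam 11 (k + 1) N) else false).toNat := by
  have h1 : ∀ b : Bool, b.toNat = if b = true then 1 else 0 := by
    intro b
    cases b <;> rfl
  rw [sum_congr rfl fun p _ => h1 _, ← card_filter]
  unfold cnt
  refine (card_bij (fun p hp => insert (⟨p, by
    have := mem_range.1 (mem_filter.1 hp).1
    omega⟩ : Fin 13) t) ?_ ?_ ?_).symm
  · intro p hp
    rw [mem_filter, mem_range] at hp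
    obtain ⟨hp1, hp2⟩ := hp
    rw [dif_pos (by omega), decide_eq_true_eq] at hp2
    rw [mem_filter]
    exact ⟨hp2.2, subset_insert _ _⟩
  · intro p hp q hq hpq
    rw [mem_filter, mem_range] at hp hq
    obtain ⟨hp1, hp2⟩ := hp
    obtain ⟨hq1, hq2⟩ := hq
    rw [dif_pos (by omega), decide_eq_true_eq] at hp2 hq2
    have h3 : (⟨p, by omega⟩ : Fin 13) ∈ insert (⟨q, by omega⟩ : Fin 13) t := by
      rw [← hpq]
      exact mem_insert_self _ _
    rw [mem_insert] at h3
    rcases h3 with h3 | h3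
    · exact Fin.mk.inj h3
    · exact absurd h3 hp2.1
  · intro s hs
    rw [mem_filter] at hs
    obtain ⟨hs1, hs2⟩ := hs
    have h3 := sub_of_mem_fam (by norm_num) hs1
    have h4 : (s \ t).card = 1 := by
      rw [card_sdiff_of_subset hs2, h3.2, ht]
      omega
    obtain ⟨a, ha⟩ := card_eq_one.1 h4
    have ha1 : a ∈ s ∧ a ∉ t := by
      rw [← mem_sdiff, ha]
      exact mem_singleton_self a
    have ha2 : a.val < 11 := mk_lt_iff.1 h3.1 a ha1.1
    have h5 : insert a t = s := by
      refine eq_of_subset_of_card_le ?_ ?_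
      · intro x hx
        rw [mem_insert] at hx
        rcases hx with rfl | hx
        · exact ha1.1
        · exact hs2 hx
      · rw [card_insert_of_notMem ha1.2, h3.2, ht]
    refine ⟨a.val, ?_, h5⟩
    rw [mem_filter, mem_range]
    refine ⟨ha2, ?_⟩
    rw [dif_pos a.isLt, decide_eq_true_eq]
    have h6 : (⟨a.val, a.isLt⟩ : Fin 13) = a := rfl
    rw [h6, h5]
    exact ⟨ha1.2, hs1⟩

/-! ### the bits of a chunk -/

theorem testBit_lane {X i m : ℕ} (hm : m < 2048) :
    (fld 2048 X i).testBit m = X.testBit (2048 * i + m) := by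
  rw [testBit_fld, decide_eq_true hm, Bool.true_and]

theorem testBit_index {i m p : ℕ} (hp : p < 11) : (2048 * i + m).testBit p = m.testBit p := by
  have e : 2048 * i + m = 2 ^ 11 * i + m := by norm_num
  rw [e]
  have h1 : (2 ^ 11 * i + m) % 2 ^ 11 = m % 2 ^ 11 := Nat.mul_add_mod _ _ _
  have h2 : ∀ x : ℕ, (x % 2 ^ 11).testBit p = x.testBit p := fun x => by
    rw [Nat.testBit_mod_two_pow, decide_eq_true hp, Bool.true_and]
  rw [← h2, h1, h2]

theorem dvd_chunk {N p : ℕ} (hp : p < 11) : 2 ^ (p + 1) ∣ 2048 * N :=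
  Dvd.dvd.mul_right (by
    have : (2048 : ℕ) = 2 ^ 11 := by norm_num
    rw [this]
    exact pow_dvd_pow 2 (by omega)) N

/-- the plane of `p` in a lane -/
theorem testBit_yp_lane {N p X i m : ℕ} (hp : p < 11) (hi : i < N) (hm : m < 2048) :
    (yp (2048 * N) p X).testBit (2048 * i + m) =
      (!m.testBit p && (fld 2048 X i).testBit (m + 2 ^ p)) := by
  rw [testBit_yp (dvd_chunk hp), testBit_index hp]
  cases hb : m.testBit p
  · have h1 : m + 2 ^ p < 2048 := add_two_pow_lt (n := 11) hp hm hb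
    rw [testBit_lane h1, Nat.add_assoc]
    have h2 : 2048 * i + (m + 2 ^ p) < 2048 * N := by
      have : 2048 * (i + 1) ≤ 2048 * N := Nat.mul_le_mul_left _ hi
      omega
    rw [decide_eq_true h2]
    simp
  · simp

theorem testBit_yp_fam {N p X i m e k : ℕ} (hp : p < 11) (hi : i < N) (hm : m < 2048)
    (hX : fld 2048 X i = cub 11 (fam 11 k e)) :
    (yp (2048 * N) p X).testBit (2048 * i + m) =
      (if h : p < 13 then decide ((⟨p, h⟩ : Fin 13) ∉ ofMask m ∧ insert (⟨p, h⟩ : Fin 13) (ofMask m) ∈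
        fam 11 k e) else false) := by
  rw [testBit_yp_lane hp hi hm, hX, dif_pos (by omega)]
  cases hb : m.testBit p
  · have h1 : m + 2 ^ p < 2 ^ 11 := add_two_pow_lt (n := 11) hp hm hb
    rw [testBit_cub _ h1]
    have h2 : ofMask (m + 2 ^ p) = insert (⟨p, by omega⟩ : Fin 13) (ofMask m) :=
      ofMask_add_of_not (⟨p, by omega⟩ : Fin 13) hb
    have h3 : (⟨p, by omega⟩ : Fin 13) ∉ ofMask m := by
      rw [mem_ofMask]
      show ¬ m.testBit p = true
      rw [hb]
      exact Bool.false_ne_true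
    rw [h2]
    simp [h3]
  · have h3 : (⟨p, by omega⟩ : Fin 13) ∈ ofMask m := by
      rw [mem_ofMask]
      exact hb
    simp [h3]

/-- the number of times a mask is seen is the number of members above it -/
theorem cA_eq {N R X T e i m : ℕ} (hi : i < N) (hm : m < 2048)
    (hR : fld 2048 R i = cub 11 (fam 11 3 T)) (hX : fld 2048 X i = cub 11 (fam 11 4 e)) :
    cA (2048 * N) R X 11 (2048 * i + m) =
      if (ofMask m).card = 3 then cnt (ent T e) (ofMask m) else 0 := by
  unfold cA
  rw [← testBit_lane hm, hR, testBit_cub _ hm]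
  rw [sum_congr rfl fun p hp => by rw [testBit_yp_fam (mem_range.1 hp) hi hm hX]]
  split_ifs with h
  · rw [cnt_ent (notMem_ofMask 11 hm), cnt_same h, cnt_above h]
  · have h1 : (decide (ofMask m ∈ fam 11 3 T)) = false :=
      decide_eq_false (notMem_of_card (by norm_num) h)
    rw [h1, Bool.toNat_false, zero_add]
    refine sum_eq_zero fun p hp => ?_
    have hp' := mem_range.1 hp
    rw [dif_pos (by omega)]
    have h2 : ¬ ((⟨p, by omega⟩ : Fin 13) ∉ ofMask m ∧
        insert (⟨p, by omega⟩ : Fin 13) (ofMask m) ∈ fam 11 4 e) := by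
      rintro ⟨h3, h4⟩
      have h5 := (sub_of_mem_fam (by norm_num) h4).2
      rw [card_insert_of_notMem h3] at h5
      omega
    rw [decide_eq_false h2, Bool.toNat_false]

/-- the plane of the bad triples -/
theorem testBit_sB {N R X T e i m : ℕ} (hi : i < N) (hm : m < 2048)
    (hR : fld 2048 R i = cub 11 (fam 11 3 T)) (hX : fld 2048 X i = cub 11 (fam 11 4 e)) :
    (sB (2048 * N) R X 11).testBit (2048 * i + m) =
      decide ((ofMask m).card = 3 ∧ 2 ≤ cnt (ent T e) (ofMask m)) := by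
  rw [(seen_spec _ _ _ _ _).2, cA_eq hi hm hR hX]
  by_cases h : (ofMask m).card = 3
  · simp [h]
  · simp [h]

/-! ### population counts of the lanes -/

/-- the first `k` merges -/
def mrgs (N x : ℕ) : ℕ → ℕ
  | 0 => x
  | k + 1 => merge (2 ^ k) (2 ^ (10 - k) * N) (mrgs N x k)

/-- number of bits in a block -/
def cB (x k i : ℕ) : ℕ := ∑ j ∈ range (2 ^ k), (x.testBit (2 ^ k * i + j)).toNat

theorem cB_le (x k i : ℕ) : cB x k i ≤ 2 ^ k := by
  unfold cB
  refine (sum_le_sum fun j _ => Bool.toNat_le _).trans ?_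
  rw [sum_const, card_range, smul_eq_mul, mul_one]

theorem cB_succ (x k i : ℕ) : cB x k (2 * i) + cB x k (2 * i + 1) = cB x (k + 1) i := by
  unfold cB
  rw [pow_succ, mul_two, sum_range_add]
  congr 1
  · refine sum_congr rfl fun j _ => ?_
    congr 2
    ring
  · refine sum_congr rfl fun j _ => ?_
    congr 2
    ring

theorem mrgs_eq {N x : ℕ} (hx : x < 2 ^ (2048 * N)) : ∀ k ≤ 11,
    mrgs N x k = pk (2 ^ k) (2 ^ (11 - k) * N) (cB x k)
  | 0, _ => by
    have h1 : pk 1 (2048 * N) (fld 1 x) = x := pk_fld (by rw [one_mul]; exact hx)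
    have h2 : fld 1 x = cB x 0 := by
      funext i
      unfold cB
      rw [pow_zero, sum_range_one, one_mul, add_zero, Pool.Agent.Helper82.TY.fld_one]
      cases x.testBit i <;> rfl
    show x = pk (2 ^ 0) (2 ^ (11 - 0) * N) (cB x 0)
    rw [← h2, pow_zero, show 2 ^ (11 - 0) = 2048 by norm_num, h1]
  | k + 1, hk => by
    have ih := mrgs_eq hx k (by omega)
    have e : 2 ^ (11 - k) * N = 2 * (2 ^ (10 - k) * N) := by
      rw [show 11 - k = (10 - k) + 1 by omega, pow_succ]
      ring
    show merge (2 ^ k) (2 ^ (10 - k) * N) (mrgs N x k) = _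
    rw [ih, e, merge_pk (Nat.two_pow_pos _) (fun i _ => lt_of_le_of_lt (cB_le x k i)
      Nat.lt_two_pow_self)]
    have e2 : 2 * 2 ^ k = 2 ^ (k + 1) := by rw [pow_succ]; ring
    have e3 : 10 - k = 11 - (k + 1) := by omega
    rw [e2, e3]
    exact pk_congr fun i _ => cB_succ x k i

/-- the bit `2 ^ p` of every lane whose family has at least 21 members through `p` -/
def flag (N Y p : ℕ) : ℕ :=
  2 ^ 2 ^ p * (((mrgs N (Y &&& ib (2048 * N) p) 11 + 1003 * rep 2048 N) &&&
    (1024 * rep 2048 N)) >>> 10)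

theorem land_1024 : ∀ x < 2048, x &&& 1024 = 1024 * (if 1024 ≤ x then 1 else 0) := by
  decide +kernel

theorem small_lt {x : ℕ} (h : x < 2048) : x < 2 ^ 2048 :=
  lt_trans h (lt_of_lt_of_le (Nat.lt_two_pow_self (n := 2048)) (le_refl _))

theorem two_pow_lt_lane {p : ℕ} (hp : p < 11) : 2 ^ 2 ^ p < 2 ^ 2048 := by
  have h : 2 ^ p < 2 ^ 11 := Nat.pow_lt_pow_right (by norm_num) hp
  have e : (2 : ℕ) ^ 11 = 2048 := by norm_num
  rw [e] at h
  exact Nat.pow_lt_pow_right (by norm_num) h

theorem flag_eq {N Y p : ℕ} (hN : Y < 2 ^ (2048 * N)) (hc : ∀ i < N,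
    cB (Y &&& ib (2048 * N) p) 11 i < 1045) :
    flag N Y p = pk 2048 N (fun i =>
      if 21 ≤ cB (Y &&& ib (2048 * N) p) 11 i then 2 ^ 2 ^ p else 0) := by
  have h1 : Y &&& ib (2048 * N) p < 2 ^ (2048 * N) := lt_of_le_of_lt Nat.and_le_left hN
  have h2 := mrgs_eq h1 11 le_rfl
  rw [show 2 ^ 11 = 2048 by norm_num, show 11 - 11 = 0 by norm_num, pow_zero, one_mul] at h2
  set c := cB (Y &&& ib (2048 * N) p) 11 with hcdef
  unfold flag
  rw [h2, mul_rep (by norm_num), mul_rep (by norm_num), pk_add, pk_land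
    (fun i hi => by
      have := hc i hi
      exact small_lt (show c i + 1003 < 2048 by omega))
    (fun i _ => small_lt (by norm_num))]
  have h3 : pk 2048 N (fun i => c i + 1003 &&& 1024) =
      1024 * pk 2048 N (fun i => if 21 ≤ c i then 1 else 0) := by
    rw [mul_pk]
    refine pk_congr fun i hi => ?_
    have h4 := hc i hi
    show (c i + 1003) &&& 1024 = 1024 * (if 21 ≤ c i then 1 else 0)
    rw [land_1024 _ (by omega)]
    by_cases h5 : 21 ≤ c i
    · rw [if_pos h5, if_pos (by omega : 1024 ≤ c i + 1003)]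
    · rw [if_neg h5, if_neg (by omega : ¬ 1024 ≤ c i + 1003)]
  have h6 : ∀ z : ℕ, (1024 * z) >>> 10 = z := fun z => by
    rw [Nat.shiftRight_eq_div_pow, show (2 : ℕ) ^ 10 = 1024 by norm_num]
    exact Nat.mul_div_cancel_left z (by norm_num)
  rw [h3, h6, mul_pk]
  refine pk_congr fun i _ => ?_
  show 2 ^ 2 ^ p * (if 21 ≤ c i then 1 else 0) = _
  by_cases h5 : 21 ≤ c i
  · rw [if_pos h5, if_pos h5, mul_one]
  · rw [if_neg h5, if_neg h5, mul_zero]

theorem testBit_pk_lane {N i m : ℕ} {a : ℕ → ℕ} (ha : ∀ i < N, a i < 2 ^ 2048) (hi : i < N)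
    (hm : m < 2048) : (pk 2048 N a).testBit (2048 * i + m) = (a i).testBit m := by
  rw [← testBit_lane hm, fld_pk ha hi]

theorem testBit_flag {N Y p i m : ℕ} (hp : p < 11) (hN : Y < 2 ^ (2048 * N)) (hc : ∀ i < N,
    cB (Y &&& ib (2048 * N) p) 11 i < 1045) (hi : i < N) (hm : m < 2048) :
    (flag N Y p).testBit (2048 * i + m) =
      decide (m = 2 ^ p ∧ 21 ≤ cB (Y &&& ib (2048 * N) p) 11 i) := by
  rw [flag_eq hN hc, testBit_pk_lane _ hi hm]
  · by_cases h : 21 ≤ cB (Y &&& ib (2048 * N) p) 11 i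
    · rw [if_pos h, Nat.testBit_two_pow]
      by_cases h2 : m = 2 ^ p
      · rw [decide_eq_true h2.symm, decide_eq_true ⟨h2, h⟩]
      · rw [decide_eq_false (fun h3 => h2 h3.symm), decide_eq_false (fun h3 => h2 h3.1)]
    · rw [if_neg h, Nat.zero_testBit, decide_eq_false (fun h3 => h h3.2)]
  · intro j _
    by_cases h : 21 ≤ cB (Y &&& ib (2048 * N) p) 11 j
    · rw [if_pos h]
      exact two_pow_lt_lane hp
    · rw [if_neg h]
      exact Nat.two_pow_pos _

/-- the bits of the points -/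
def fls (N Y : ℕ) : ℕ → ℕ
  | 0 => 0
  | k + 1 => fls N Y k ||| flag N Y k

theorem testBit_fls {N Y i m : ℕ} (hN : Y < 2 ^ (2048 * N)) (hc : ∀ p < 11, ∀ i < N,
    cB (Y &&& ib (2048 * N) p) 11 i < 1045) (hi : i < N) (hm : m < 2048) : ∀ k ≤ 11,
    (fls N Y k).testBit (2048 * i + m) =
      decide (∃ p < k, m = 2 ^ p ∧ 21 ≤ cB (Y &&& ib (2048 * N) p) 11 i)
  | 0, _ => by
    show (0 : ℕ).testBit _ = _
    rw [Nat.zero_testBit, decide_eq_false]
    rintro ⟨p, hp, -⟩
    omega
  | k + 1, hk => by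
    show (fls N Y k ||| flag N Y k).testBit _ = _
    rw [Nat.testBit_or, testBit_fls hN hc hi hm k (by omega),
      testBit_flag (by omega) hN (hc k (by omega)) hi hm, ← Bool.decide_or, decide_eq_decide]
    constructor
    · rintro (⟨p, h1, h2⟩ | h)
      · exact ⟨p, by omega, h2⟩
      · exact ⟨k, by omega, h⟩
    · rintro ⟨p, h1, h2⟩
      by_cases h3 : p = k
      · subst h3
        exact Or.inr h2
      · exact Or.inl ⟨p, by omega, h2⟩

/-! ### the counts in a lane -/

/-- the number of bits of a cube code with a property -/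
theorem sum_cub {F : Fam} (hF : ∀ s ∈ F, mk s < 2 ^ 11) (q : ℕ → Bool)
    (Q : Finset (Fin 13) → Prop) [DecidablePred Q] (hq : ∀ s ∈ F, (q (mk s) = true ↔ Q s)) :
    ∑ j ∈ range 2048, (q j && (cub 11 F).testBit j).toNat = (F.filter Q).card := by
  have h1 : ∀ b : Bool, b.toNat = if b = true then 1 else 0 := by
    intro b
    cases b <;> rfl
  rw [sum_congr rfl fun j _ => h1 _, ← card_filter]
  symm
  refine card_bij (fun s _ => mk s) ?_ ?_ ?_
  · intro s hs
    rw [mem_filter] at hs
    have h2 := hF s hs.1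
    rw [mem_filter, mem_range, testBit_cub_mk F h2, decide_eq_true hs.1, (hq s hs.1).2 hs.2]
    exact ⟨h2, rfl⟩
  · intro s _ t _ hst
    exact mk_injective hst
  · intro j hj
    rw [mem_filter, mem_range, Bool.and_eq_true, testBit_cub F (by exact hj.1 : j < 2 ^ 11),
      decide_eq_true_eq] at hj
    obtain ⟨hj1, hj2, hj3⟩ := hj
    have h13 : j < 2 ^ 13 := lt_of_lt_of_le hj1 (by norm_num)
    refine ⟨ofMask j, ?_, mk_ofMask h13⟩
    rw [mem_filter]
    refine ⟨hj3, (hq _ hj3).1 ?_⟩
    rw [mk_ofMask h13]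
    exact hj2

/-- members of size three and four -/
def low (T e : ℕ) : Fam := fam 11 3 T ∪ fam 11 4 e

theorem low_lt {T e : ℕ} : ∀ s ∈ low T e, mk s < 2 ^ 11 := by
  intro s hs
  unfold low at hs
  rw [mem_union] at hs
  rcases hs with h | h
  · exact (sub_of_mem_fam (by norm_num) h).1
  · exact (sub_of_mem_fam (by norm_num) h).1

theorem disj_low (T e : ℕ) : Disjoint (fam 11 3 T) (fam 11 4 e) := by
  rw [disjoint_left]
  intro s h1 h2
  have h3 := (sub_of_mem_fam (by norm_num) h1).2
  have h4 := (sub_of_mem_fam (by norm_num) h2).2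
  omega

theorem card_fam_le (k N : ℕ) : (fam 11 k N).card ≤ Nat.choose 11 k := by
  have h1 : fam 11 k N ⊆ (below 11).powersetCard k := by
    intro s hs
    have h2 := sub_of_mem_fam (by norm_num) hs
    rw [mem_powersetCard]
    refine ⟨fun a ha => mem_below.2 (mk_lt_iff.1 h2.1 a ha), h2.2⟩
  have h2 := card_le_card h1
  have h3 : (below 11).card = 11 := by decide
  rwa [card_powersetCard, h3] at h2

theorem card_low_le (T e : ℕ) : (low T e).card ≤ 495 := by
  have h1 := card_fam_le 3 T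
  have h2 := card_fam_le 4 e
  have h3 : Nat.choose 11 3 = 165 := by decide
  have h4 : Nat.choose 11 4 = 330 := by decide
  unfold low
  rw [card_union_of_disjoint (disj_low T e)]
  omega

theorem cnt_low {T e : ℕ} {t : Finset (Fin 13)} (ht : (11 : Fin 13) ∉ t) :
    cnt (low T e) t = cnt (ent T e) t := by
  unfold low
  rw [cnt_union (disj_low T e), cnt_ent ht]

/-- the number of members through a point of a lane -/
theorem cB_low {N Y T e i p : ℕ} (hp : p < 11) (hi : i < N)
    (hY : fld 2048 Y i = cub 11 (low T e)) :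
    cB (Y &&& ib (2048 * N) p) 11 i = cnt (ent T e) {(⟨p, by omega⟩ : Fin 13)} := by
  have h0 : (11 : Fin 13) ∉ ({(⟨p, by omega⟩ : Fin 13)} : Finset (Fin 13)) := by
    rw [mem_singleton]
    intro h
    have := congrArg Fin.val h
    have e : (11 : Fin 13).val = 11 := rfl
    simp only [e] at this
    omega
  rw [← cnt_low h0]
  unfold cB cnt
  rw [show 2 ^ 11 = 2048 by norm_num]
  have h1 : ∀ j ∈ range 2048, ((Y &&& ib (2048 * N) p).testBit (2048 * i + j)).toNat =
      (j.testBit p && (cub 11 (low T e)).testBit j).toNat := by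
    intro j hj
    have hj' := mem_range.1 hj
    rw [Nat.testBit_and, testBit_ib (dvd_chunk hp), testBit_index hp, ← testBit_lane hj', hY]
    have h2 : 2048 * i + j < 2048 * N := by
      have : 2048 * (i + 1) ≤ 2048 * N := Nat.mul_le_mul_left _ hi
      omega
    rw [decide_eq_true h2, Bool.true_and, Bool.and_comm]
  rw [sum_congr rfl h1]
  refine sum_cub low_lt _ _ fun s hs => ?_
  rw [singleton_subset_iff]
  have h2 : (⟨p, by omega⟩ : Fin 13) ∈ ofMask (mk s) ↔ (mk s).testBit p = true := mem_ofMask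
  rw [ofMask_mk] at h2
  exact h2.symm

theorem card_ent {T e : ℕ} : (ent T e).card = (low T e).card := by
  have h : ∀ D : Fam, cnt D ∅ = D.card := fun D => by
    unfold cnt
    rw [filter_true_of_mem fun s _ => empty_subset s]
  rw [← h, ← h, cnt_low (notMem_empty _)]

/-- the number of members of a lane -/
theorem cB_all {Y T e i : ℕ} (hY : fld 2048 Y i = cub 11 (low T e)) :
    cB Y 11 i = (ent T e).card := by
  rw [card_ent]
  unfold cB
  rw [show 2 ^ 11 = 2048 by norm_num]
  have h1 : ∀ j ∈ range 2048, (Y.testBit (2048 * i + j)).toNat =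
      (true && (cub 11 (low T e)).testBit j).toNat := by
    intro j hj
    rw [← testBit_lane (mem_range.1 hj), hY, Bool.true_and]
  rw [sum_congr rfl h1, sum_cub low_lt (fun _ => true) (fun _ => True) fun s _ =>
    ⟨fun _ => trivial, fun _ => rfl⟩, filter_true_of_mem fun s _ => trivial]

theorem cnt_le_card (D : Fam) (t : Finset (Fin 13)) : cnt D t ≤ D.card := by
  unfold cnt
  exact card_filter_le _ _

theorem cB_lt {N Y : ℕ} (hY : ∀ i < N, ∃ T e, fld 2048 Y i = cub 11 (low T e)) :
    ∀ p < 11, ∀ i < N, cB (Y &&& ib (2048 * N) p) 11 i < 1045 := by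
  intro p hp i hi
  obtain ⟨T, e, h⟩ := hY i hi
  rw [cB_low hp hi h]
  have h1 := cnt_le_card (ent T e) {(⟨p, by omega⟩ : Fin 13)}
  have h2 := card_low_le T e
  rw [← card_ent] at h2
  omega

/-! ### the chunk with all layers -/

/-- the chunk with all layers -/
def layers (N R X : ℕ) : ℕ := X ||| (sB (2048 * N) R X 11 ||| fls N (X ||| R) 11)

theorem fld_lor' (X Y i : ℕ) : fld 2048 (X ||| Y) i = fld 2048 X i ||| fld 2048 Y i := by
  refine Nat.eq_of_testBit_eq fun j => ?_
  rw [Nat.testBit_or, testBit_fld, testBit_fld, testBit_fld, Nat.testBit_or]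
  cases decide (j < 2048) <;> simp

theorem fld_low {R X T e i : ℕ} (hR : fld 2048 R i = cub 11 (fam 11 3 T))
    (hX : fld 2048 X i = cub 11 (fam 11 4 e)) :
    fld 2048 (X ||| R) i = cub 11 (low T e) := by
  unfold low
  rw [fld_lor', hR, hX, cub_union, Nat.lor_comm]

theorem card_ofMask_eq_one {m : ℕ} (hm : m < 2 ^ 11) : (ofMask m).card = 1 ↔
    ∃ p < 11, m = 2 ^ p := by
  have h13 : m < 2 ^ 13 := lt_of_lt_of_le hm (by norm_num)
  constructor
  · intro h
    obtain ⟨a, ha⟩ := card_eq_one.1 h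
    have h1 : mk (ofMask m) = m := mk_ofMask h13
    have h2 : a ∈ ofMask m := by
      rw [ha]
      exact mem_singleton_self a
    have h3 : a.val < 11 := by
      rw [← h1] at hm
      exact mk_lt_iff.1 hm a h2
    refine ⟨a.val, h3, ?_⟩
    have h4 : ofMask (2 ^ a.val) = {a} := by
      ext b
      rw [mem_ofMask, mem_singleton, Nat.testBit_two_pow, decide_eq_true_eq, Fin.ext_iff]
      exact ⟨fun h => h.symm, fun h => h.symm⟩
    have h5 : (2 : ℕ) ^ a.val < 2 ^ 13 := Nat.pow_lt_pow_right (by norm_num) a.isLt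
    rw [← h1, ha, ← h4, mk_ofMask h5]
  · rintro ⟨p, hp, rfl⟩
    rw [card_eq_one]
    refine ⟨⟨p, by omega⟩, ?_⟩
    ext b
    rw [mem_ofMask, mem_singleton, Nat.testBit_two_pow, decide_eq_true_eq, Fin.ext_iff]
    exact ⟨fun h => h.symm, fun h => h.symm⟩

theorem ofMask_two_pow {p : ℕ} (hp : p < 13) : ofMask (2 ^ p) = {(⟨p, hp⟩ : Fin 13)} := by
  ext b
  rw [mem_ofMask, mem_singleton, Nat.testBit_two_pow, decide_eq_true_eq, Fin.ext_iff]
  exact ⟨fun h => h.symm, fun h => h.symm⟩

theorem subset_below_of_lt {m : ℕ} (hm : m < 2 ^ 11) : ofMask m ⊆ below 11 := by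
  intro a ha
  have h13 : m < 2 ^ 13 := lt_of_lt_of_le hm (by norm_num)
  rw [← mk_ofMask h13] at hm
  exact mem_below.2 (mk_lt_iff.1 hm a ha)

theorem mem_ent_iff {T e : ℕ} {s : Finset (Fin 13)} (h : (11 : Fin 13) ∉ s) :
    s ∈ ent T e ↔ s ∈ fam 11 4 e := by
  unfold ent
  rw [mem_union, mem_cone (notMem_T T)]
  exact ⟨fun h1 => h1.elim (fun h2 => absurd h2.1 h) id, Or.inr⟩

/-- **all layers of a chunk** -/
theorem fld_layers {N R X T e i : ℕ} (hRb : R < 2 ^ (2048 * N)) (hXb : X < 2 ^ (2048 * N))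
    (hall : ∀ i < N, ∃ T e, fld 2048 R i = cub 11 (fam 11 3 T) ∧
      fld 2048 X i = cub 11 (fam 11 4 e))
    (hi : i < N) (hR : fld 2048 R i = cub 11 (fam 11 3 T))
    (hX : fld 2048 X i = cub 11 (fam 11 4 e)) (hodd : OddFam 3 (below 12) (ent T e)) :
    fld 2048 (layers N R X) i = cub 11 (laneF (ent T e)) := by
  refine Nat.eq_of_testBit_eq fun m => ?_
  by_cases hm : m < 2048
  · have hm' : m < 2 ^ 11 := hm
    rw [testBit_lane hm, testBit_cub _ hm']
    have hYb : X ||| R < 2 ^ (2048 * N) := Nat.or_lt_two_pow hXb hRb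
    have hY : ∀ i < N, ∃ T e, fld 2048 (X ||| R) i = cub 11 (low T e) := by
      intro j hj
      obtain ⟨T', e', h1, h2⟩ := hall j hj
      exact ⟨T', e', fld_low h1 h2⟩
    unfold layers
    rw [Nat.testBit_or, Nat.testBit_or, testBit_sB hi hm hR hX,
      testBit_fls hYb (cB_lt hY) hi hm 11 le_rfl, ← testBit_lane hm, hX, testBit_cub _ hm',
      ← Bool.decide_or, ← Bool.decide_or, decide_eq_decide, mem_laneF]
    have h11 : (11 : Fin 13) ∉ ofMask m := notMem_ofMask 11 hm'
    have hsub := subset_below_of_lt hm'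
    refine or_congr ?_ (or_congr ?_ ?_)
    · rw [mem_ent_iff h11]
      exact ⟨fun h => ⟨h, h11⟩, fun h => h.1⟩
    · constructor
      · rintro ⟨h1, h2⟩
        refine ⟨hsub, h1, ?_⟩
        obtain ⟨r, hr⟩ := hodd.2 (ofMask m) (hsub.trans (below_mono (by norm_num))) h1
        omega
      · rintro ⟨-, h1, h2⟩
        exact ⟨h1, by omega⟩
    · constructor
      · rintro ⟨p, hp, h1, h2⟩
        rw [cB_low hp hi (fld_low hR hX)] at h2
        refine ⟨hsub, (card_ofMask_eq_one hm').2 ⟨p, hp, h1⟩, ?_⟩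
        rw [h1, ofMask_two_pow (by omega)]
        exact h2
      · rintro ⟨-, h1, h2⟩
        obtain ⟨p, hp, h3⟩ := (card_ofMask_eq_one hm').1 h1
        refine ⟨p, hp, h3, ?_⟩
        rw [cB_low hp hi (fld_low hR hX)]
        rw [h3, ofMask_two_pow (by omega)] at h2
        exact h2
  · rw [testBit_cub_ge _ (by omega), testBit_fld, decide_eq_false hm, Bool.false_and]

end Pool.Agent.Helper39.TY
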