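import Pool.Agent.Helper7.TY.Flags
import Pool.Agent.Helper7.TB.Acc
import Pool.Agent.Helper7.TB.Cls
import Pool.Agent.Helper16.TY.Tab.All

/-!
MP_8ee768_co, project TH-Y', stage TB2: the flag check of helper7 on consecutive classes.

A chunk is a first class number `a` and one literal per class: the records of the class, 97 bits
each, and a one bit on top.
-/

set_option autoImplicit false
set_option maxRecDepth 100000

namespace Pool.Agent.Helper39.TY

open Finset
open Pool.Agent.Helper89.CV (OddCover ofMask)
open Pool.Agent.Helper97.CV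
open Pool.Agent.Helper79.CV
open Pool.Agent.Helper63.SIMD
open Pool.Agent.Helper16.TY
open Pool.Agent.Helper7.TY
open Pool.Agent.Helper82.TY (force force_eq)
open Pool.Agent.Helper7.TB (typ nl cls typF nlF laneF typF_eq nlF_eq laneF_lt typ_lt)

/-- class number of a lane -/
noncomputable def clF (t i : ℕ) : ℕ := force t fun t => force i fun i => cls t i

theorem clF_eq (t i : ℕ) : clF t i = cls t i := by
  unfold clF
  rw [force_eq, force_eq]

/-- the records of a class -/
def decR (n : ℕ) : ℕ → List ℕ :=
  Nat.rec (motive := fun _ => ℕ → List ℕ) (fun _ => [])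
    (fun _ ih x => cond (Nat.beq x 1) []
      (Nat.land x 0x1ffffffffffffffffffffffff :: force (Nat.shiftRight x 97) ih)) n

/-- the classes of a chunk -/
def decC (l : List ℕ) : ℕ → List (ℕ × List ℕ) :=
  List.rec (motive := fun _ => ℕ → List (ℕ × List ℕ)) (fun _ => [])
    (fun x _ ih a => (a, decR 13 x) :: force (Nat.succ a) ih) l

theorem decC_fst (l : List ℕ) (a : ℕ) : (decC l a).map Prod.fst = (List.range l.length).map (a + ·) := by
  induction l generalizing a with
  | nil => rfl
  | cons x l ih =>
    have e : decC (x :: l) a = (a, decR 13 x) :: force (Nat.succ a) (decC l) := rfl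
    rw [e, force_eq, List.map_cons, ih, List.length_cons, List.range_succ_eq_map, List.map_cons,
      List.map_map]
    congr 1
    refine List.map_congr_left fun i _ => ?_
    show a.succ + i = a + (i + 1)
    omega

/-- star masks -/
def starsL : List (ℕ × ℕ) := [
  (0, 0x404082112c04082112c082112c10896112c4b2dc04082112c082112c10896112c4b2dc082112c10896112c4b2dc10896112c4b2dc2258965b8965b96ef),
  (1, 0x808104225408104225410422542112a22549556c08104225410422542112a22549556c10422542112a22549556c2112a22549556c44a92aad92aadab77),
  (2, 0x1010208449810208449820844984224c4499269b410208449820844984224c4499269b420844984224c4499269b44224c4499269b489324d36a4d36cdbb),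
  (3, 0x202041088e02041088e041088e08447088e238e382041088e041088e08447088e238e3841088e08447088e238e388447088e238e3911c471c7471c771dd),
  (4, 0x40408210f00408210f008210f01087810f03c0fc0408210f008210f01087810f03c0fc08210f01087810f03c0fc1087810f03c0fc21e0781f8781f87e1e),
  (5, 0x8081041f00081041f001041f0020f801f003ff00081041f001041f0020f801f003ff001041f0020f801f003ff0020f801f003ff003e007fe007fe007fe0),
  (6, 0x1010207e00010207e000207e0003f0001fffc000010207e000207e0003f0001fffc0000207e0003f0001fffc00003f0001fffc00003fff800007ffff8000),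
  (7, 0x20203f80000203f800003f800003ffffe00000000203f800003f800003ffffe000000003f800003ffffe000000003ffffe000000003ffffffff800000000),
  (8, 0x403fc0000003fc0000003ffffffc00000000000003fc0000003ffffffc00000000000003ffffffc00000000000003fffffffffffffc00000000000000000),
  (9, 0x7fc000000003ffffffffc000000000000000000003ffffffffc000000000000000000003ffffffffffffffffffffc0000000000000000000000000000000),
  (10, 0x7ffffffffffc000000000000000000000000000003fffffffffffffffffffffffffffffc0000000000000000000000000000000000000000000000000000),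
  (11, 0x7ffffffffffffffffffffffffffffffffffffffffc0000000000000000000000000000000000000000000000000000000000000000000000000000000000)]

theorem stars_eq : starsL = stars := by decide +kernel

/-- the check of a chunk with the classes `a, .., b - 1` and `N` records -/
noncomputable def flChk (N a b : ℕ) (ls : List ℕ) : Bool :=
  Nat.beq (Nat.add a ls.length) b &&
    chunkChk starsL 5074 nlF Tab.rp typF laneF clF N (decC ls a)

theorem rp_lt (j : ℕ) : Tab.rp j < 2 ^ 495 := Nat.mod_lt _ (Nat.two_pow_pos 495)

/-- all flags of the class `j` are in the rows -/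
def ClsFl (j : ℕ) : Prop :=
  ∀ p : Fin 13, p ≠ 12 → (link (fam 12 4 (Tab.rp j)) p).card ≠ 19 →
    ∃ t, InR 5074 t ∧ ∃ ψ : Equiv.Perm (Fin 13), ψ 12 = 12 ∧ ψ p = 11 ∧
      link (mapF ψ (fam 12 4 (Tab.rp j))) 11 = fam 11 3 (typ t) ∧
      (j, (mapF ψ (fam 12 4 (Tab.rp j))).filter (fun s => (11 : Fin 13) ∉ s)) ∈
        LSet (nl t) (laneF t) (cls t)

/-- the flags of the classes `a, .., b - 1` -/
def FlR (a b : ℕ) : Prop := ∀ j, a ≤ j → j < b → ClsFl j

theorem FlR.app {a b c : ℕ} (h : FlR a b) (h' : FlR b c) : FlR a c := fun j h1 h2 =>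
  (Nat.lt_or_ge j b).elim (fun h3 => h j h1 h3) fun h3 => h' j h3 h2

/-- **soundness of the chunk check** -/
theorem flChk_sound {N a b : ℕ} {ls : List ℕ} (h : flChk N a b ls = true) : FlR a b := by
  unfold flChk at h
  rw [stars_eq, Bool.and_eq_true, Nat.beq_eq] at h
  obtain ⟨h0, h⟩ := h
  have h0' : a + ls.length = b := h0
  subst h0'
  intro j h1 h2
  have hj : j ∈ (decC ls a).map Prod.fst := by
    rw [decC_fst, List.mem_map]
    exact ⟨j - a, List.mem_range.2 (by omega), by omega⟩
  obtain ⟨x, hx, rfl⟩ := List.mem_map.1 hj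
  intro p hp hc
  obtain ⟨t, ht, ψ, h3, h4, h5, h6⟩ := chunkChk_sound rp_lt (fun t => by
    rw [typF_eq]
    exact typ_lt t) laneF_lt h x hx p hp hc
  refine ⟨t, ht, ψ, h3, h4, by rw [h5, typF_eq], ?_⟩
  obtain ⟨i, hi, hi2⟩ := h6
  rw [nlF_eq] at hi
  rw [clF_eq] at hi2
  exact ⟨i, hi, hi2⟩

/-- all flags of all classes -/
theorem flagL_of (h : FlR 0 24746) :
    FlagL ((List.range Tab.nc).map Tab.rp) 5074 typ (fun t => LSet (nl t) (laneF t) (cls t)) := by
  intro j r hr p hp hc
  have hj : j < 24746 := by
    by_contra h1
    rw [List.getElem?_eq_none] at hr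
    · exact absurd hr (by simp)
    · rw [List.length_map, List.length_range]
      show 24746 ≤ j
      omega
  have hr' : r = Tab.rp j := by
    rw [List.getElem?_map, List.getElem?_range (show j < Tab.nc from hj)] at hr
    exact (Option.some.inj hr).symm
  subst hr'
  exact h j (Nat.zero_le j) hj p hp hc

end Pool.Agent.Helper39.TY
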