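import Pool.Agent.Helper79.CV.FLane
import Pool.Agent.Helper91.TY.CRun

/-!
MP_8ee768_co, project TH-Y': the cube form of the linkage.

`lane D a` is the family carried by the cube lane of a link `D` with apex (root) `a`: the members
avoiding `a` (weight 4), the triples covered at least three times (weight 3), and the points with
excess at least one (weight 1). `InL N L F`: some lane of some chunk of the list `L` is the cube code
of `F`; a chunk has `N` lanes of 2048 bits.
-/

set_option autoImplicit false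

namespace Pool.Agent.Helper39.TY

open Finset
open Pool.Agent.Helper89.CV (OddCover ofMask)
open Pool.Agent.Helper97.CV
open Pool.Agent.Helper79.CV
open Pool.Agent.Helper33.CV
open Pool.Agent.Helper63.SIMD
open Pool.Agent.Helper91.TY
open Pool.Agent.Helper82.TY (below)

/-- the family of a cube lane -/
def lane (D : Fam) (a : Fin 13) : Fam :=
  univ.filter fun s => a ∉ s ∧ ((s.card = 4 ∧ s ∈ D) ∨ (s.card = 3 ∧ 3 ≤ cnt D s) ∨
    (s.card = 1 ∧ 20 ≤ cnt D s))

theorem mem_lane {D : Fam} {a : Fin 13} {s : Finset (Fin 13)} : s ∈ lane D a ↔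
    a ∉ s ∧ ((s.card = 4 ∧ s ∈ D) ∨ (s.card = 3 ∧ 3 ≤ cnt D s) ∨ (s.card = 1 ∧ 20 ≤ cnt D s)) := by
  unfold lane
  rw [mem_filter]
  exact ⟨fun h => h.2, fun h => ⟨mem_univ _, h⟩⟩

/-- lanes move with relabellings -/
theorem lane_mapF (σ : Equiv.Perm (Fin 13)) (D : Fam) (a : Fin 13) :
    mapF σ (lane D a) = lane (mapF σ D) (σ a) := by
  ext s
  obtain ⟨t, rfl⟩ : ∃ t, s = mapS σ t := ⟨mapS σ.symm s, (mapS_mapS_symm σ s).symm⟩
  rw [mem_mapF, mem_lane, mem_lane, card_mapS, mem_mapS, mem_mapF, cnt_mapF]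

theorem cnt_link_of_mem (B : Fam) {y : Fin 13} {s : Finset (Fin 13)} (h : y ∈ s) :
    cnt (link B y) s = 0 := by
  unfold cnt
  rw [card_eq_zero, filter_eq_empty_iff]
  intro b hb hs
  exact (mem_link.1 hb).1 (hs h)

theorem mem_lane_link {B : Fam} {y a : Fin 13} {s : Finset (Fin 13)} :
    s ∈ lane (link B y) a ↔ y ∉ s ∧ a ∉ s ∧ ((s.card = 4 ∧ insert y s ∈ B) ∨
      (s.card = 3 ∧ 3 ≤ cnt B (insert y s)) ∨ (s.card = 1 ∧ 20 ≤ cnt B (insert y s))) := by
  rw [mem_lane, mem_link]
  by_cases h : y ∈ s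
  · rw [cnt_link_of_mem B h]
    constructor
    · rintro ⟨-, ⟨-, h1, -⟩ | ⟨-, h1⟩ | ⟨-, h1⟩⟩
      · exact absurd h h1
      · omega
      · omega
    · rintro ⟨h1, -⟩
      exact absurd h h1
  · rw [cnt_link B h]
    tauto

/-- the lane of `11` in the frame `12, 11, 10` -/
def LY (B : Fam) : Fam := lane (link B 11) 12

/-- the lane of `10`, the point `11` moved to `10` -/
def LZ (B : Fam) : Fam := mapF (Equiv.swap 10 11) (lane (link B 10) 12)

theorem mem_ly {B : Fam} {s : Finset (Fin 13)} :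
    s ∈ LY B ↔ 11 ∉ s ∧ 12 ∉ s ∧ ((s.card = 4 ∧ insert 11 s ∈ B) ∨
      (s.card = 3 ∧ 3 ≤ cnt B (insert 11 s)) ∨ (s.card = 1 ∧ 20 ≤ cnt B (insert 11 s))) :=
  mem_lane_link

theorem mapS_swap_eq_self {p q : Fin 13} {s : Finset (Fin 13)} (hp : p ∉ s) (hq : q ∉ s) :
    mapS (Equiv.swap p q) s = s :=
  mapS_eq_self fun a ha => Equiv.swap_apply_of_ne_of_ne (fun h => hp (h ▸ ha))
    (fun h => hq (h ▸ ha))

/-- the sets of the second lane not through `10` -/
theorem mem_lz {B : Fam} {s : Finset (Fin 13)} (h10 : (10 : Fin 13) ∉ s) :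
    s ∈ LZ B ↔ 11 ∉ s ∧ 12 ∉ s ∧ ((s.card = 4 ∧ insert 10 s ∈ B) ∨
      (s.card = 3 ∧ 3 ≤ cnt B (insert 10 s)) ∨ (s.card = 1 ∧ 20 ≤ cnt B (insert 10 s))) := by
  unfold LZ
  rw [mem_mapF', Equiv.symm_swap, mem_lane_link]
  by_cases h11 : (11 : Fin 13) ∈ s
  · have h1 : (10 : Fin 13) ∈ mapS (Equiv.swap 10 11) s := by
      rw [mem_mapS', Equiv.symm_swap, Equiv.swap_apply_left]
      exact h11
    tauto
  · rw [mapS_swap_eq_self h10 h11]
    tauto

/-- the sets of the second lane through `10` -/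
theorem insert_mem_lz {B : Fam} {r : Finset (Fin 13)} (h10 : (10 : Fin 13) ∉ r) :
    insert 10 r ∈ LZ B ↔ insert 10 r ∈ LY B := by
  have e : (11 : Fin 13) ≠ 10 := by decide
  have e2 : (12 : Fin 13) ≠ 10 := by decide
  have e3 : (12 : Fin 13) ≠ 11 := by decide
  unfold LZ LY
  rw [mem_mapF', Equiv.symm_swap, mem_lane_link, mem_lane_link, card_mapS]
  by_cases h11 : (11 : Fin 13) ∈ r
  · have h1 : (10 : Fin 13) ∈ mapS (Equiv.swap 10 11) (insert 10 r) := by
      rw [mem_mapS', Equiv.symm_swap, Equiv.swap_apply_left]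
      exact mem_insert_of_mem h11
    have h2 : (11 : Fin 13) ∈ insert 10 r := mem_insert_of_mem h11
    tauto
  · have h1 : mapS (Equiv.swap 10 11) (insert 10 r) = insert 11 r := by
      rw [mapS_insert, Equiv.swap_apply_left, mapS_swap_eq_self h10 h11]
    rw [h1, Finset.insert_comm 10 11 r]
    simp only [mem_insert, not_or]
    tauto

/-- the two lanes agree on the sets through the last point -/
theorem link_ly_lz (B : Fam) : link (LY B) 10 = link (LZ B) 10 := by
  ext s
  rw [mem_link, mem_link]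
  constructor
  · rintro ⟨h1, h2⟩
    exact ⟨h1, (insert_mem_lz h1).2 h2⟩
  · rintro ⟨h1, h2⟩
    exact ⟨h1, (insert_mem_lz h1).1 h2⟩

/-- upper halves of the cubes -/
theorem cub_ly_lz (B : Fam) : cub 11 (LY B) >>> 1024 = cub 11 (LZ B) >>> 1024 := by
  have h := cub_shift 10
  have e : (10 : Fin 13).val = 10 := rfl
  simp only [e] at h
  have e2 : (2 : ℕ) ^ 10 = 1024 := by norm_num
  rw [← e2, h, h, link_ly_lz]

/-! ### the layers in terms of `ex` and `mm` -/

theorem three_le_cnt {B : Fam} (hB : OddCover B) {q : Finset (Fin 13)} (hq : q.card = 4) :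
    3 ≤ cnt B q ↔ 1 ≤ ex B q := by
  rw [cnt_quad hB hq]
  omega

theorem twenty_le_cnt {B : Fam} (hB : OddCover B) {u v : Fin 13} (huv : u ≠ v) :
    20 ≤ cnt B {u, v} ↔ 1 ≤ mm B u v := by
  rw [cnt_pair hB huv]
  omega

/-- a triple of the lane of `y` -/
theorem triple_mem_lane {B : Fam} (hB : OddCover B) {y a : Fin 13} {s : Finset (Fin 13)}
    (hy : y ∉ s) (ha : a ∉ s) (hs : s.card = 3) :
    s ∈ lane (link B y) a ↔ 1 ≤ ex B (insert y s) := by
  have h1 : (insert y s).card = 4 := by rw [card_insert_of_notMem hy, hs]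
  rw [mem_lane_link, ← three_le_cnt hB h1]
  have e1 : s.card ≠ 4 := by omega
  have e2 : s.card ≠ 1 := by omega
  tauto

/-- a block of the lane of `y` -/
theorem quad_mem_lane {B : Fam} {y a : Fin 13} {s : Finset (Fin 13)}
    (hy : y ∉ s) (ha : a ∉ s) (hs : s.card = 4) :
    s ∈ lane (link B y) a ↔ insert y s ∈ B := by
  rw [mem_lane_link]
  have e1 : s.card ≠ 3 := by omega
  have e2 : s.card ≠ 1 := by omega
  tauto

/-- a point of the lane of `y` -/
theorem point_mem_lane {B : Fam} (hB : OddCover B) {y a p : Fin 13} (hy : y ≠ p) (ha : a ≠ p) :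
    {p} ∈ lane (link B y) a ↔ 1 ≤ mm B y p := by
  have h1 : (insert y {p} : Finset (Fin 13)) = {y, p} := rfl
  rw [mem_lane_link, h1, twenty_le_cnt hB hy, mem_singleton, mem_singleton]
  have e1 : ({p} : Finset (Fin 13)).card ≠ 4 := by rw [card_singleton]; omega
  have e2 : ({p} : Finset (Fin 13)).card ≠ 3 := by rw [card_singleton]; omega
  have e3 : ({p} : Finset (Fin 13)).card = 1 := card_singleton p
  tauto

/-! ### lists of chunks -/

/-- some lane of some chunk is the cube code of `F` -/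
def InL (N : ℕ) (L : List ℕ) (F : Fam) : Prop := ∃ X ∈ L, ∃ i < N, fld 2048 X i = cub 11 F

theorem InL.mono {N : ℕ} {L L' : List ℕ} {F : Fam} (h : InL N L F) (hL : ∀ X ∈ L, X ∈ L') :
    InL N L' F := by
  obtain ⟨X, h1, h2⟩ := h
  exact ⟨X, hL X h1, h2⟩

/-- a relabelled lane is a lane of the relabelled list -/
theorem InL.run {N : ℕ} {L : List ℕ} {F : Fam} (h : InL N L F) {w len : ℕ}
    (hw : okW 11 w len = true) :
    InL N (L.map (runC (2048 * N) len w)) (mapF (wpc (prs w len)) F) := by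
  obtain ⟨X, h1, i, hi, h2⟩ := h
  refine ⟨_, List.mem_map_of_mem h1, i, hi, ?_⟩
  exact fld_runC (n := 11) (N := N) (by norm_num) hw hi h2

theorem wpc_eleven {w len : ℕ} (hw : okW 11 w len = true) : wpc (prs w len) 11 = 11 :=
  wpc_fix (n := 11) (fun p hp => by
    have h := prs_lt hw p hp
    exact ⟨by omega, h.2⟩) (le_refl 11)

theorem wpc_twelve {w len : ℕ} (hw : okW 11 w len = true) : wpc (prs w len) 12 = 12 :=
  wpc_fix (n := 11) (fun p hp => by
    have h := prs_lt hw p hp
    exact ⟨by omega, h.2⟩) (by decide)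

/-- completeness of a list of chunks for the pair type `T` -/
def TabL (N T cap : ℕ) (P : Fam → Fin 13 → Prop) (L : List ℕ) : Prop :=
  ∀ D : Fam, OddFam 3 (below 12) D → link D 11 = fam 11 3 T → 2 * D.card ≤ 114 + cap → P D 11 →
    InL N L (lane D 11)

theorem TabL.mono {N T cap cap' : ℕ} {P P' : Fam → Fin 13 → Prop} {L L' : List ℕ}
    (h : TabL N T cap P L) (hc : cap' ≤ cap) (hP : ∀ D a, P' D a → P D a)
    (hL : ∀ X ∈ L, X ∈ L') : TabL N T cap' P' L' :=
  fun D h1 h2 h3 h4 => (h D h1 h2 (by omega) (hP _ _ h4)).mono hL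

/-- an odd family is determined by the part avoiding a point and the link -/
theorem eq_union_cone {D : Fam} (a : Fin 13) {T : Fam} (h : link D a = T) :
    D = D.filter (fun s => a ∉ s) ∪ cone a T := by
  subst h
  ext s
  have h1 : s ∈ cone a (link D a) ↔ a ∈ s ∧ s ∈ D := by
    rw [mem_cone (fun r hr => (mem_link.1 hr).1), mem_link]
    constructor
    · rintro ⟨h2, -, h3⟩
      rw [insert_erase h2] at h3
      exact ⟨h2, h3⟩
    · rintro ⟨h2, h3⟩
      exact ⟨h2, notMem_erase a s, by rwa [insert_erase h2]⟩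
  rw [mem_union, mem_filter, h1]
  tauto

/-- the lane in terms of the part avoiding `11` and the pair type -/
def laneT (T : ℕ) (E : Fam) : Fam := lane (E ∪ cone 11 (fam 11 3 T)) 11

/-- from the table of the parts to the list of chunks -/
theorem tabL_of_tableOK {N T cap : ℕ} {P : Fam → Fin 13 → Prop} {S : Set Fam} {L : List ℕ}
    (hT : TableOK T cap (fun D => P D 11) S) (hL : ∀ E ∈ S, InL N L (laneT T E)) :
    TabL N T cap P L := by
  intro D h1 h2 h3 h4
  have h5 := hL _ (hT D h1 h2 h3 h4)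
  unfold laneT at h5
  rwa [← eq_union_cone 11 h2] at h5

/-! ### the linkage -/

/-- the link of `y` in the table frame -/
theorem frame_facts {B : Fam} (hB : OddCover B) {y : Fin 13} {T : ℕ}
    {σ : Equiv.Perm (Fin 13)} (h12 : σ 12 = 12) (hy : σ y = 11)
    (hσT : mapF σ (link (link B 12) y) = fam 11 3 T) :
    OddFam 3 (below 12) (mapF (Equiv.swap 11 12) (mapF σ (link B y))) ∧
      link (mapF (Equiv.swap 11 12) (mapF σ (link B y))) 11 = fam 11 3 T := by
  have hBσ := oddCover_mapF hB σ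
  set B' := mapF σ B with hB'
  set τ : Equiv.Perm (Fin 13) := Equiv.swap 11 12 with hτ
  have hl11 : link B' 11 = mapF σ (link B y) := by
    rw [hB', ← hy, link_mapF]
  have hl12 : link B' 12 = mapF σ (link B 12) := by
    conv_lhs => rw [hB', ← h12]
    exact link_mapF σ B 12
  have hll : link (link B' 12) 11 = fam 11 3 T := by
    rw [hl12, ← hσT, ← hy, link_mapF]
  have hfix : ∀ a : Fin 13, a ≠ 11 → a ≠ 12 → τ a = a := fun a h1 h2 =>
    Equiv.swap_apply_of_ne_of_ne h1 h2
  have hτ11 : τ 11 = 12 := Equiv.swap_apply_left _ _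
  have hτ12 : τ 12 = 11 := Equiv.swap_apply_right _ _
  rw [← hl11]
  constructor
  · have h1 := (oddFam_link hBσ 11).map τ
    have h2 : mapS τ (univ.erase 11) = below 12 := by
      ext a
      rw [mem_mapS', mem_erase, mem_below]
      have hs : τ.symm = τ := Equiv.symm_swap _ _
      rw [hs]
      constructor
      · rintro ⟨h3, -⟩
        by_contra h4
        have h5 : a = 12 := by
          apply Fin.ext
          have : (12 : Fin 13).val = 12 := rfl
          omega
        exact h3 (by rw [h5, hτ12])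
      · intro h3
        refine ⟨fun h4 => ?_, mem_univ _⟩
        have h5 : a = 12 := by
          have h6 : τ (τ a) = a := by
            rw [hτ]
            exact congrFun (congrArg DFunLike.coe (Equiv.swap_mul_self (11 : Fin 13) 12)) a
          rw [← h6, h4, hτ11]
        rw [h5] at h3
        exact absurd h3 (by decide)
    rw [h2] at h1
    exact h1
  · have h1 : link (mapF τ (link B' 11)) (τ 12) = mapF τ (link (link B' 11) 12) :=
      link_mapF τ _ _
    rw [hτ12, link_comm B' 11 12, hll] at h1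
    rw [h1]
    refine mapF_eq_self fun s hs a ha => ?_
    have h2 := mk_lt_iff.1 (sub_of_mem_fam (by norm_num) hs).1 a ha
    refine hfix a ?_ ?_
    · rintro rfl
      exact absurd h2 (by decide)
    · rintro rfl
      exact absurd h2 (by decide)

/-- **LINKAGE, lane form**: the relabelled lane of `y` is a lane of the list -/
theorem inL_of_tabL {B : Fam} (hB : OddCover B) {y : Fin 13} {N T cap : ℕ}
    {P : Fam → Fin 13 → Prop} (hP : InvA P) {L : List ℕ} (hT : TabL N T cap P L)
    {σ : Equiv.Perm (Fin 13)} (h12 : σ 12 = 12) (hy : σ y = 11)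
    (hσT : mapF σ (link (link B 12) y) = fam 11 3 T) (hM : MM B y ≤ cap)
    (hPy : P (link B y) 12) : InL N L (mapF σ (lane (link B y) 12)) := by
  obtain ⟨h1, h2⟩ := frame_facts hB h12 hy hσT
  have h3 : 2 * (mapF (Equiv.swap 11 12) (mapF σ (link B y))).card ≤ 114 + cap := by
    rw [card_mapF, card_mapF, two_mul_card_link hB y]
    omega
  have h4 : P (mapF (Equiv.swap 11 12) (mapF σ (link B y))) 11 := by
    have h5 := hP (Equiv.swap 11 12) _ _ (hP σ _ _ hPy)
    rwa [h12, Equiv.swap_apply_right] at h5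
  have h5 := hT _ h1 h2 h3 h4
  have h6 : lane (mapF (Equiv.swap 11 12) (mapF σ (link B y))) 11 =
      mapF σ (lane (link B y) 12) := by
    have e1 : lane (mapF (Equiv.swap 11 12) (mapF σ (link B y))) 11 =
        mapF (Equiv.swap 11 12) (lane (mapF σ (link B y)) 12) := by
      rw [lane_mapF, Equiv.swap_apply_right]
    have e2 : lane (mapF σ (link B y)) 12 = mapF σ (lane (link B y) 12) := by
      rw [lane_mapF, h12]
    rw [e1, e2]
    refine mapF_eq_self fun s hs a ha => ?_
    rw [mem_mapF', mem_lane_link] at hs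
    refine Equiv.swap_apply_of_ne_of_ne ?_ ?_
    · rintro rfl
      refine hs.1 ?_
      rw [mem_mapS', Equiv.symm_symm, hy]
      exact ha
    · rintro rfl
      refine hs.2.1 ?_
      rw [mem_mapS', Equiv.symm_symm, h12]
      exact ha
  rwa [h6] at h5

/-- the lane of `11` is a relabelled lane of the list -/
theorem ly_mem {B : Fam} (hB : OddCover B) {N T cap : ℕ}
    {P : Fam → Fin 13 → Prop} (hP : InvA P) {L : List ℕ} (hT : TabL N T cap P L)
    {w len : ℕ} (hw : okW 11 w len = true)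
    (hρ : mapF (wpc (prs w len)) (fam 11 3 T) = link (link B 12) 11) (hM : MM B 11 ≤ cap)
    (hPy : P (link B 11) 12) : InL N (L.map (runC (2048 * N) len w)) (LY B) := by
  set ρ := wpc (prs w len) with hr
  have h12 : ρ 12 = 12 := wpc_twelve hw
  have h11 : ρ 11 = 11 := wpc_eleven hw
  have h1 : mapF ρ.symm (link (link B 12) 11) = fam 11 3 T := by
    rw [← hρ, mapF_symm_mapF]
  have h2 := inL_of_tabL hB hP hT (σ := ρ.symm) (y := 11)
    (by rw [Equiv.symm_apply_eq, h12]) (by rw [Equiv.symm_apply_eq, h11]) h1 hM hPy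
  have h3 := h2.run hw
  rw [← hr] at h3
  have h4 : mapF ρ (mapF ρ.symm (lane (link B 11) 12)) = LY B := by
    have := mapF_symm_mapF ρ.symm (lane (link B 11) 12)
    rwa [Equiv.symm_symm] at this
  rwa [h4] at h3

/-- the lane of `10` is a relabelled lane of the list -/
theorem lz_mem {B : Fam} (hB : OddCover B) {N T cap : ℕ}
    {P : Fam → Fin 13 → Prop} (hP : InvA P) {L : List ℕ} (hT : TabL N T cap P L)
    {w len : ℕ} (hw : okW 11 w len = true)
    (hρ : mapF (wpc (prs w len)) (fam 11 3 T) = mapF (Equiv.swap 10 11) (link (link B 12) 10))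
    (hM : MM B 10 ≤ cap) (hPz : P (link B 10) 12) :
    InL N (L.map (runC (2048 * N) len w)) (LZ B) := by
  set ρ := wpc (prs w len) with hr
  set τ : Equiv.Perm (Fin 13) := Equiv.swap 10 11 with hτ
  have h12 : ρ 12 = 12 := wpc_twelve hw
  have h11 : ρ 11 = 11 := wpc_eleven hw
  have hτ10 : τ 10 = 11 := Equiv.swap_apply_left _ _
  have hτ12 : τ 12 = 12 := Equiv.swap_apply_of_ne_of_ne (by decide) (by decide)
  have e1 : (ρ.symm * τ) 12 = 12 := by
    rw [Equiv.Perm.mul_apply, hτ12, Equiv.symm_apply_eq, h12]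
  have e2 : (ρ.symm * τ) 10 = 11 := by
    rw [Equiv.Perm.mul_apply, hτ10, Equiv.symm_apply_eq, h11]
  have h1 : mapF (ρ.symm * τ) (link (link B 12) 10) = fam 11 3 T := by
    rw [mapF_mul, ← hρ, mapF_symm_mapF]
  have h2 := inL_of_tabL hB hP hT e1 e2 h1 hM hPz
  have h3 := h2.run hw
  rw [← hr] at h3
  have h4 : mapF ρ (mapF (ρ.symm * τ) (lane (link B 10) 12)) = LZ B := by
    rw [mapF_mul]
    have := mapF_symm_mapF ρ.symm (mapF τ (lane (link B 10) 12))
    rwa [Equiv.symm_symm] at this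
  rwa [h4] at h3

end Pool.Agent.Helper39.TY
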