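import Pool.Agent.Helper39.TY.Layers

/-!
MP_8ee768_co, project TH-Y': layered lanes with the number of members.

`layersM N R X` is `layers N R X` with the bits 0 and 1 of `|D| + 7` at the masks 0 and 2047 of every
lane, `D = ent T e`; the lane is the cube code of `lay D`.
-/

set_option autoImplicit false

namespace Pool.Agent.Helper39.TY

open Finset
open Pool.Agent.Helper89.CV (OddCover ofMask)
open Pool.Agent.Helper97.CV
open Pool.Agent.Helper79.CV
open Pool.Agent.Helper33.CV
open Pool.Agent.Helper63.SIMD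
open Pool.Agent.Helper91.TY
open Pool.Agent.Helper82.TY (below)

/-- the family of a layered lane: members (4), triples seen twice (3), points in at least 21
members (1), the two last bits of the number of members plus 7 (0 and 11) -/
def lay (D : Fam) : Fam :=
  univ.filter fun s => mk s < 2048 ∧ ((s.card = 4 ∧ s ∈ D) ∨ (s.card = 3 ∧ 2 ≤ cnt D s) ∨
    (s.card = 1 ∧ 21 ≤ cnt D s) ∨ (s.card = 0 ∧ (D.card + 7) % 2 = 1) ∨
    (s.card = 11 ∧ (D.card + 7) / 2 % 2 = 1))

theorem mem_lay {D : Fam} {s : Finset (Fin 13)} : s ∈ lay D ↔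
    mk s < 2048 ∧ ((s.card = 4 ∧ s ∈ D) ∨ (s.card = 3 ∧ 2 ≤ cnt D s) ∨
    (s.card = 1 ∧ 21 ≤ cnt D s) ∨ (s.card = 0 ∧ (D.card + 7) % 2 = 1) ∨
    (s.card = 11 ∧ (D.card + 7) / 2 % 2 = 1)) := by
  unfold lay
  rw [mem_filter]
  exact ⟨fun h => h.2, fun h => ⟨mem_univ _, h⟩⟩

/-- the bits of the number of members -/
def flM (N Y : ℕ) : ℕ :=
  ((mrgs N Y 11 + 7 * rep 2048 N) &&& (1 * rep 2048 N)) |||
    (2 ^ 2046 * ((mrgs N Y 11 + 7 * rep 2048 N) &&& (2 * rep 2048 N)))

theorem testBit_flM {N Y i m : ℕ} (hN : Y < 2 ^ (2048 * N)) (hc : ∀ i < N, cB Y 11 i < 1045)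
    (hi : i < N) (hm : m < 2048) : (flM N Y).testBit (2048 * i + m) =
      (decide (m = 0 ∧ (cB Y 11 i + 7) % 2 = 1) ||
        decide (m = 2047 ∧ (cB Y 11 i + 7) / 2 % 2 = 1)) := by
  have h2 := mrgs_eq hN 11 le_rfl
  rw [show 2 ^ 11 = 2048 by norm_num, show 11 - 11 = 0 by norm_num, pow_zero, one_mul] at h2
  unfold flM
  have hlt : ∀ j < N, cB Y 11 j + 7 < 2 ^ 2048 := fun j hj => small_lt (by
    have := hc j hj
    omega)
  rw [h2, mul_rep (by norm_num), mul_rep (by norm_num), mul_rep (by norm_num), pk_add,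
    pk_land hlt (fun _ _ => small_lt (by norm_num)),
    pk_land hlt (fun _ _ => small_lt (by norm_num)), mul_pk, Nat.testBit_or,
    testBit_pk_lane _ hi hm, testBit_pk_lane _ hi hm]
  · congr 1
    · show ((cB Y 11 i + 7) &&& 1).testBit m = _
      rw [Nat.and_one_is_mod]
      by_cases h : (cB Y 11 i + 7) % 2 = 1
      · rw [h]
        by_cases h3 : m = 0
        · subst h3
          rw [decide_eq_true (⟨rfl, rfl⟩ : (0 : ℕ) = 0 ∧ 1 = 1)]
          rfl
        · rw [decide_eq_false (fun h4 => h3 h4.1)]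
          exact Nat.testBit_lt_two_pow (lt_of_lt_of_le (by norm_num : 1 < 2 ^ 1)
            (Nat.pow_le_pow_right (by norm_num) (by omega)))
      · have h5 : (cB Y 11 i + 7) % 2 = 0 := by omega
        rw [h5, Nat.zero_testBit, decide_eq_false (fun h4 => absurd h4.2 (by norm_num))]
    · show (2 ^ 2046 * ((cB Y 11 i + 7) &&& 2)).testBit m = _
      have h6 : (cB Y 11 i + 7) &&& 2 = 2 * ((cB Y 11 i + 7) / 2 % 2) := by
        refine Nat.eq_of_testBit_eq fun j => ?_
        have e2 : (2 : ℕ) = 2 ^ 1 := rfl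
        rw [Nat.testBit_and]
        have h7 : (2 * ((cB Y 11 i + 7) / 2 % 2)).testBit j =
            (decide (j = 1) && (cB Y 11 i + 7).testBit 1) := by
          have h8 : (cB Y 11 i + 7).testBit 1 = decide ((cB Y 11 i + 7) / 2 % 2 = 1) := by
            rw [Nat.testBit_eq_decide_div_mod_eq]
          rw [h8]
          rcases Nat.mod_two_eq_zero_or_one ((cB Y 11 i + 7) / 2) with h9 | h9
          · rw [h9, mul_zero, Nat.zero_testBit]
            simp
          · rw [h9, mul_one]
            have h10 : Nat.testBit 2 j = decide (1 = j) := by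
              have := @Nat.testBit_two_pow 1 j
              simpa using this
            rw [h10]
            by_cases h11 : j = 1
            · subst h11
              simp
            · have h12 : ¬ 1 = j := fun h => h11 h.symm
              simp [h11, h12]
        rw [h7]
        have h10 : Nat.testBit 2 j = decide (1 = j) := by
          have := @Nat.testBit_two_pow 1 j
          simpa using this
        rw [h10]
        by_cases h11 : j = 1
        · subst h11
          simp
        · have h12 : ¬ 1 = j := fun h => h11 h.symm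
          simp [h11, h12]
      rw [h6]
      rcases Nat.mod_two_eq_zero_or_one ((cB Y 11 i + 7) / 2) with h9 | h9
      · rw [h9, mul_zero, mul_zero, Nat.zero_testBit,
          decide_eq_false (fun h4 => absurd h4.2 (by norm_num))]
      · rw [h9, mul_one]
        have e : 2 ^ 2046 * 2 = 2 ^ 2047 := (pow_succ 2 2046).symm
        rw [e, Nat.testBit_two_pow, decide_eq_decide]
        exact ⟨fun h => ⟨h.symm, rfl⟩, fun h => h.1.symm⟩
  · intro j hj
    show 2 ^ 2046 * ((cB Y 11 j + 7) &&& 2) < 2 ^ 2048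
    have h3 : (cB Y 11 j + 7) &&& 2 ≤ 2 := Nat.and_le_right
    calc 2 ^ 2046 * ((cB Y 11 j + 7) &&& 2) ≤ 2 ^ 2046 * 2 := Nat.mul_le_mul_left _ h3
      _ = 2 ^ 2047 := (pow_succ 2 2046).symm
      _ < 2 ^ 2048 := Nat.pow_lt_pow_right (by norm_num) (by norm_num)
  · intro j hj
    exact lt_of_le_of_lt (Nat.and_le_left) (hlt j hj)

/-- the chunk with all layers and the number of members -/
def layersM (N R X : ℕ) : ℕ := layers N R X ||| flM N (X ||| R)

theorem card_ofMask_eq_zero {m : ℕ} (hm : m < 2 ^ 11) : (ofMask m).card = 0 ↔ m = 0 := by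
  have h13 : m < 2 ^ 13 := lt_of_lt_of_le hm (by norm_num)
  rw [card_eq_zero]
  constructor
  · intro h
    have h1 := mk_ofMask h13
    rw [h] at h1
    rw [← h1]
    decide
  · rintro rfl
    decide

theorem card_ofMask_eq_eleven {m : ℕ} (hm : m < 2 ^ 11) : (ofMask m).card = 11 ↔ m = 2047 := by
  have h13 : m < 2 ^ 13 := lt_of_lt_of_le hm (by norm_num)
  constructor
  · intro h
    have h1 : ofMask m = below 11 := by
      refine eq_of_subset_of_card_le (subset_below_of_lt hm) ?_
      rw [h]
      decide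
    have h2 := mk_ofMask h13
    rw [h1] at h2
    rw [← h2]
    decide +kernel
  · rintro rfl
    decide +kernel

/-- **all layers of a chunk, with the number of members** -/
theorem fld_layersM {N R X T e i : ℕ} (hRb : R < 2 ^ (2048 * N)) (hXb : X < 2 ^ (2048 * N))
    (hall : ∀ i < N, ∃ T e, fld 2048 R i = cub 11 (fam 11 3 T) ∧
      fld 2048 X i = cub 11 (fam 11 4 e))
    (hi : i < N) (hR : fld 2048 R i = cub 11 (fam 11 3 T))
    (hX : fld 2048 X i = cub 11 (fam 11 4 e)) :
    fld 2048 (layersM N R X) i = cub 11 (lay (ent T e)) := by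
  refine Nat.eq_of_testBit_eq fun m => ?_
  by_cases hm : m < 2048
  · have hm' : m < 2 ^ 11 := hm
    rw [testBit_lane hm, testBit_cub _ hm']
    have hYb : X ||| R < 2 ^ (2048 * N) := Nat.or_lt_two_pow hXb hRb
    have hY : ∀ i < N, ∃ T e, fld 2048 (X ||| R) i = cub 11 (low T e) := by
      intro j hj
      obtain ⟨T', e', h1, h2⟩ := hall j hj
      exact ⟨T', e', fld_low h1 h2⟩
    have hc : ∀ i < N, cB (X ||| R) 11 i < 1045 := by
      intro j hj
      obtain ⟨T', e', h1⟩ := hY j hj
      rw [cB_all h1, card_ent]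
      have := card_low_le T' e'
      omega
    unfold layersM layers
    rw [Nat.testBit_or, Nat.testBit_or, Nat.testBit_or, testBit_sB hi hm hR hX,
      testBit_fls hYb (cB_lt hY) hi hm 11 le_rfl, testBit_flM hYb hc hi hm, ← testBit_lane hm, hX,
      testBit_cub _ hm', cB_all (fld_low hR hX), Bool.or_assoc, Bool.or_assoc,
      ← Bool.decide_or, ← Bool.decide_or, ← Bool.decide_or, ← Bool.decide_or,
      decide_eq_decide, mem_lay]
    have h13 : m < 2 ^ 13 := lt_of_lt_of_le hm' (by norm_num)
    have h11 : (11 : Fin 13) ∉ ofMask m := notMem_ofMask 11 hm'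
    have hmk : mk (ofMask m) < 2048 := by
      rw [mk_ofMask h13]
      exact hm
    have hand : ∀ p : Prop, (mk (ofMask m) < 2048 ∧ p) ↔ p := fun p =>
      ⟨fun h => h.2, fun h => ⟨hmk, h⟩⟩
    rw [hand]
    refine or_congr ?_ (or_congr Iff.rfl (or_congr ?_ (or_congr ?_ ?_)))
    · rw [mem_ent_iff h11]
      exact ⟨fun h => ⟨(sub_of_mem_fam (by norm_num) h).2, h⟩, fun h => h.2⟩
    · constructor
      · rintro ⟨p, hp, h1, h2⟩
        rw [cB_low hp hi (fld_low hR hX)] at h2
        refine ⟨(card_ofMask_eq_one hm').2 ⟨p, hp, h1⟩, ?_⟩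
        rw [h1, ofMask_two_pow (by omega)]
        exact h2
      · rintro ⟨h1, h2⟩
        obtain ⟨p, hp, h3⟩ := (card_ofMask_eq_one hm').1 h1
        refine ⟨p, hp, h3, ?_⟩
        rw [cB_low hp hi (fld_low hR hX)]
        rw [h3, ofMask_two_pow (by omega)] at h2
        exact h2
    · rw [card_ofMask_eq_zero hm']
    · rw [card_ofMask_eq_eleven hm']
  · rw [testBit_cub_ge _ (by omega), testBit_fld, decide_eq_false hm, Bool.false_and]

end Pool.Agent.Helper39.TY
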